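import Pool.Agent.helper62.W3.SpecA

/-! Row LCE: characters of large conductor. -/

set_option autoImplicit false

namespace Pool.Agent.EC

open Finset ArithmeticFunction
open Pool.Agent.CH (Win rgh dl eU Mo ClP ClB)
open Pool.Agent.helper85.BVP (trunc beta Mr Zr)
open GD (kp ks)

theorem LCE_coprime {r : ℕ → ℕ} (hr : ClP r) {m : ℕ} (hm : 0 < m) (h30 : Nat.Coprime m 30) :
    Nat.Coprime (r m) (30 * m) := by
  obtain ⟨h1, h2⟩ := hr m hm h30
  apply Nat.Coprime.mul_right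
  · have h3 : Nat.gcd (r m) 30 = Nat.gcd 1 30 := Nat.ModEq.gcd_eq h1
    unfold Nat.Coprime
    rw [h3]
    norm_num
  · rw [Nat.coprime_iff_gcd_eq_one] 
    by_contra hne
    obtain ⟨p, hp, hpd⟩ := Nat.exists_prime_and_dvd hne
    have hp1 : p ∣ r m := hpd.trans (Nat.gcd_dvd_left _ _)
    have hp2 : p ∣ m := hpd.trans (Nat.gcd_dvd_right _ _)
    have hp3 : p ∣ 6 := (Nat.dvd_add_right hp1).1 (hp2.trans h2)
    have hp4 : p ∣ 30 := hp3.trans (by norm_num)
    have hp5 : p ∣ Nat.gcd m 30 := Nat.dvd_gcd hp2 hp4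
    rw [Nat.coprime_iff_gcd_eq_one.1 h30] at hp5
    exact hp.one_lt.ne' (Nat.dvd_one.1 hp5)

theorem LCE (h1 : VID_stmt) (h2 : TYI_stmt) (h3 : TII_stmt) (h4 : KKD_stmt) (h5 : VBD_stmt) : LCE_stmt := by
  intro ε A hε hε'
  obtain ⟨B, C, N1, hII⟩ := h3 ε (A + 3) hε hε'
  obtain ⟨N2, hV⟩ := h1 C
  obtain ⟨N3, hI⟩ := h2 ε (A + 1) (B + 1) C hε hε'
  obtain ⟨hv1, -, -⟩ := h5
  refine ⟨B, C, max (max N1 N2) (max N3 (max 1 ⌈Real.exp (C + 5)⌉₊)), fun N hN r hr => ?_⟩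
  have hN1 : N1 ≤ N := le_trans (le_trans (le_max_left _ _) (le_max_left _ _)) hN
  have hN2 : N2 ≤ N := le_trans (le_trans (le_max_right _ _) (le_max_left _ _)) hN
  have hN3 : N3 ≤ N := le_trans (le_trans (le_max_left _ _) (le_max_right _ _)) hN
  have hN4 : 1 ≤ N := le_trans (le_trans (le_trans (le_max_left _ _) (le_max_right _ _)) (le_max_right _ _)) hN
  have hN5 : ⌈Real.exp (C + 5)⌉₊ ≤ N :=
    le_trans (le_trans (le_trans (le_max_right _ _) (le_max_right _ _)) (le_max_right _ _)) hN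
  have hN0 : (0 : ℝ) < N := by exact_mod_cast hN4
  have hLC : (C : ℝ) + 5 ≤ Real.log N := by
    rw [Real.le_log_iff_exp_le hN0]
    exact (Nat.le_ceil _).trans (by exact_mod_cast hN5)
  have hC0 : (0 : ℝ) ≤ C := Nat.cast_nonneg C
  have hIIN := hII N hN1 r
  have hIN := hI N hN3 r (Or.inl hr)
  have hVN := hV N hN2
  set Q : ℝ := (N : ℝ) ^ (1 / 2 - ε) with hQ
  set L : ℝ := Real.log N with hL
  clear_value L
  have hL5 : 5 ≤ L := by linarith
  have hL0 : 0 < L := by linarith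
  have hL1 : 1 ≤ L := by linarith
  set R : ℕ := ⌈L ^ B⌉₊ with hRdef
  have hR1 : L ^ B ≤ R := Nat.le_ceil _
  have hR3 : 1 ≤ R := by
    have : (0 : ℝ) < R := lt_of_lt_of_le (pow_pos hL0 B) hR1
    exact_mod_cast this
  have hR2 : (R : ℝ) ≤ L ^ (B + 1) := by
    have e1 : (R : ℝ) < L ^ B + 1 := Nat.ceil_lt_add_one (pow_nonneg hL0.le B)
    have e2 : 1 ≤ L ^ B := one_le_pow₀ hL1
    rw [pow_succ]
    nlinarith
  clear_value R
  -- the number of dyadic blocks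
  set I : ℕ := Nat.log 2 (30 * N) + 1 with hIdef
  have hIb : 30 * N ≤ 2 ^ I := (Nat.lt_pow_succ_log_self (by norm_num) (30 * N)).le
  have hIL : (I : ℝ) ≤ L ^ 2 := by
    have e1 : ((Nat.log 2 (30 * N) : ℕ) : ℝ) * Real.log 2 ≤ Real.log ((30 * N : ℕ) : ℝ) := by
      have e2 : 2 ^ Nat.log 2 (30 * N) ≤ 30 * N := Nat.pow_log_le_self 2 (by omega)
      have e3 : ((2 : ℝ) ^ Nat.log 2 (30 * N)) ≤ ((30 * N : ℕ) : ℝ) := by exact_mod_cast e2
      have e4 := Real.log_le_log (by positivity) e3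
      rwa [Real.log_pow] at e4
    have e5 : Real.log ((30 * N : ℕ) : ℝ) = Real.log 30 + L := by
      push_cast
      rw [Real.log_mul (by norm_num) hN0.ne', hL]
    have e6 : Real.log 30 ≤ 4 := by
      rw [Real.log_le_iff_le_exp (by norm_num)]
      have h27 : (2.7182818283 : ℝ) < Real.exp 1 := Real.exp_one_gt_d9
      have e8 : Real.exp 4 = Real.exp 1 ^ 4 := by
        rw [← Real.exp_nat_mul]; norm_num
      rw [e8]
      calc (30 : ℝ) ≤ 2.7 ^ 4 := by norm_num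
        _ ≤ Real.exp 1 ^ 4 := pow_le_pow_left₀ (by norm_num) (by linarith) 4
    have e7 : (0.6931471803 : ℝ) < Real.log 2 := Real.log_two_gt_d9
    rw [e5] at e1
    have hn : (0 : ℝ) ≤ ((Nat.log 2 (30 * N) : ℕ) : ℝ) := Nat.cast_nonneg _
    have hIc : (I : ℝ) = ((Nat.log 2 (30 * N) : ℕ) : ℝ) + 1 := by
      rw [hIdef]; push_cast; ring
    rw [hIc]
    nlinarith
  clear_value I
  -- decomposition
  have hkey : ∀ m ∈ Mo Q, ∑ j ∈ Win N, mnf C N j * fN N j * KK R (30 * m) (r m) j =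
      ∑ j ∈ Win N, tyI N (UN C N) 1 (fun d => ((moebius d : ℤ) : ℝ)) j * fN N j * KK R (30 * m) (r m) j -
      ∑ j ∈ Win N, tyI N (UN C N) 0 (fun d => eU (UN C N) d) j * fN N j * KK R (30 * m) (r m) j +
      ∑ i ∈ range I, ∑ j ∈ Win N, tII C N j * fN N j * kp (2 ^ i * R) (30 * m) (r m) j := by
    intro m hm
    unfold Mo at hm
    rw [mem_filter, mem_Icc] at hm
    obtain ⟨⟨hm1, hm2⟩, hm3⟩ := hm
    have hmN : m ≤ N := by
      have e1 : (m : ℝ) ≤ Q := (Nat.le_floor_iff' (by omega)).1 hm2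
      have e2 : Q ≤ N := by
        rw [hQ]
        calc (N : ℝ) ^ (1 / 2 - ε) ≤ (N : ℝ) ^ (1 : ℝ) :=
              Real.rpow_le_rpow_of_exponent_le (by exact_mod_cast hN4) (by linarith)
          _ = N := Real.rpow_one _
      exact_mod_cast e1.trans e2
    have hcop := LCE_coprime hr hm1 hm3
    rw [Finset.sum_comm, ← Finset.sum_sub_distrib, ← Finset.sum_add_distrib]
    refine Finset.sum_congr rfl fun j hj => ?_
    rw [hVN j hj, ← Finset.mul_sum, ← h4 (30 * m) (r m) R I j (by omega) hcop hR3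
      (le_trans (Nat.mul_le_mul_left 30 hmN) (hIb.trans (Nat.le_mul_of_pos_right _ hR3))), tI]
    ring
  have hξ1 : ∀ d : ℕ, d ≤ UN C N → |((moebius d : ℤ) : ℝ)| ≤ L ^ 2 := by
    intro d _
    have e1 : |(moebius d : ℤ)| ≤ 1 := abs_moebius_le_one
    have e2 : |((moebius d : ℤ) : ℝ)| ≤ 1 := by exact_mod_cast e1
    nlinarith
  have hξ2 : ∀ d : ℕ, d ≤ UN C N → |eU (UN C N) d| ≤ L ^ 2 := by
    intro d hd
    rcases Nat.eq_zero_or_pos d with h0 | h0
    · rw [h0, ArithmeticFunction.map_zero, abs_zero]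
      positivity
    · refine (hv1 (UN C N) d h0).trans ?_
      have hd' : (d : ℝ) ≤ N * L ^ C := by
        unfold UN at hd
        rw [← hL] at hd
        exact (Nat.le_floor_iff' (by omega)).1 hd
      have hd0 : (0 : ℝ) < d := by exact_mod_cast h0
      have e1 : Real.log d ≤ L + C * Real.log L := by
        have e2 := Real.log_le_log hd0 hd'
        rw [Real.log_mul hN0.ne' (pow_pos hL0 C).ne', Real.log_pow, ← hL] at e2
        exact e2
      have e3 : Real.log L ≤ L := (Real.log_le_sub_one_of_pos hL0).trans (by linarith)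
      have e4 : (C : ℝ) * Real.log L ≤ C * L := mul_le_mul_of_nonneg_left e3 hC0
      nlinarith
  have hA1 := hIN R hR3 hR2 1 (fun d => ((moebius d : ℤ) : ℝ)) (le_refl 1) hξ1
  have hA0 := hIN R hR3 hR2 0 (fun d => eU (UN C N) d) (Nat.zero_le 1) hξ2
  have hAI : ∀ i ∈ range I, ∑ m ∈ Mo Q, |∑ j ∈ Win N, tII C N j * fN N j * kp (2 ^ i * R) (30 * m) (r m) j| ≤
      (N : ℝ) ^ 2 / L ^ (A + 3) := by
    intro i _
    refine hIIN (2 ^ i * R) (hR1.trans ?_)
    have : R ≤ 2 ^ i * R := Nat.le_mul_of_pos_left _ (by positivity)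
    exact_mod_cast this
  calc ∑ m ∈ Mo Q, |∑ j ∈ Win N, mnf C N j * fN N j * KK R (30 * m) (r m) j|
      ≤ ∑ m ∈ Mo Q, (|∑ j ∈ Win N, tyI N (UN C N) 1 (fun d => ((moebius d : ℤ) : ℝ)) j * fN N j *
            KK R (30 * m) (r m) j| +
          |∑ j ∈ Win N, tyI N (UN C N) 0 (fun d => eU (UN C N) d) j * fN N j * KK R (30 * m) (r m) j| +
          ∑ i ∈ range I, |∑ j ∈ Win N, tII C N j * fN N j * kp (2 ^ i * R) (30 * m) (r m) j|) := by
        refine Finset.sum_le_sum fun m hm => ?_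
        rw [hkey m hm]
        refine (abs_add_le _ _).trans (add_le_add (abs_sub _ _) (Finset.abs_sum_le_sum_abs _ _))
    _ = ∑ m ∈ Mo Q, |∑ j ∈ Win N, tyI N (UN C N) 1 (fun d => ((moebius d : ℤ) : ℝ)) j * fN N j *
            KK R (30 * m) (r m) j| +
          ∑ m ∈ Mo Q, |∑ j ∈ Win N, tyI N (UN C N) 0 (fun d => eU (UN C N) d) j * fN N j *
            KK R (30 * m) (r m) j| +
          ∑ i ∈ range I, ∑ m ∈ Mo Q, |∑ j ∈ Win N, tII C N j * fN N j * kp (2 ^ i * R) (30 * m) (r m) j| := by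
        rw [Finset.sum_add_distrib, Finset.sum_add_distrib, Finset.sum_comm (s := Mo Q) (t := range I)]
    _ ≤ (N : ℝ) ^ 2 / L ^ (A + 1) + (N : ℝ) ^ 2 / L ^ (A + 1) + ∑ i ∈ range I, (N : ℝ) ^ 2 / L ^ (A + 3) :=
        add_le_add (add_le_add hA1 hA0) (Finset.sum_le_sum hAI)
    _ = 2 * ((N : ℝ) ^ 2 / L ^ (A + 1)) + I * ((N : ℝ) ^ 2 / L ^ (A + 3)) := by
        rw [Finset.sum_const, card_range, nsmul_eq_mul]
        ring
    _ ≤ 2 * ((N : ℝ) ^ 2 / L ^ (A + 1)) + L ^ 2 * ((N : ℝ) ^ 2 / L ^ (A + 3)) :=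
        add_le_add_right (mul_le_mul_of_nonneg_right hIL (by positivity)) _
    _ = 3 * ((N : ℝ) ^ 2 / L ^ (A + 1)) := by
        have : L ^ (A + 3) = L ^ (A + 1) * L ^ 2 := by ring
        rw [this]
        field_simp
        ring
    _ ≤ (N : ℝ) ^ 2 / L ^ A := by
        have : L ^ (A + 1) = L ^ A * L := by ring
        rw [this, ← div_div, ← mul_div_assoc, div_le_iff₀ hL0]
        have : 0 ≤ (N : ℝ) ^ 2 / L ^ A := by positivity
        nlinarith

end Pool.Agent.EC
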